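import Pool.Agent.Run7.h391.Data.All

/-!
# Every symmetric strategy of the telephone problem needs at least `0.785 n` periods on average

`Pool.Agent.W972.AW.bestTime n` is the infimum, over all probability measures `D` on the sequences of
labels `ℕ → Fin n`, of the expected meeting time of two players who both follow `D`, the wires being a
uniformly random permutation.  The first period has number one.

Outline of the proof (all files in `Pool/Agent/Run7/h391`).

* A pair of label sequences has, up to a small error, a probability of not having met by period `T` that
  is at least `(1 - x/n)(1 - y/n) exp(-z/n) - 1/N^2`, where the periods in which both players use a
  frequent label of theirs are `t`, one of them only `x` and `y`, and `z = T - x - y - t` (switching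
  arguments for permanents; frequent: used more than `w` times).
* Averages over two independent players are estimated by positive semidefinite kernels in the two numbers
  `x + t` and `y + t` and in the overlap `t`; the kernels are rounded to rational data on a grid.
* What remains is a sum over a grid of times of functions of the number of periods with a frequent label
  so far; its minimum over all grid paths is found by a dynamic programme.
* The rational data for the 120 times of the grid are checked by the kernel of Lean.
-/

namespace Pool.Agent.Results.MP_92dd55_pr.AsymptoticLowerBound

/-- For `n ≥ 10 ^ 30`, the expected meeting time of every symmetric strategy is at least `0.785 n`. -/
theorem result (n : ℕ) (hn : 10 ^ 30 ≤ n) :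
    ENNReal.ofReal (0.785 * n) ≤ Pool.Agent.W972.AW.bestTime n :=
  Run7.h391.large_bound n hn

end Pool.Agent.Results.MP_92dd55_pr.AsymptoticLowerBound
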