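import Pool.Agent.Run7.h391.Attain

/-!
# The symmetric telephone problem with a deadline `k ≤ n`, solved exactly for every `n`

`Schedule n` is the type of the sequences of labels of the phones picked up by a player; a (mixed)
strategy is a probability measure `D` on it.  `missProb D k` is the probability `P(T > k)` that two
players who follow `D` independently do not meet in the first `k` periods, the wires being a uniformly
random permutation.  For `2 ≤ k ≤ n` we find the minimum of `P(T > k)` over all strategies, and a
strategy attaining it: with probability `θ` stay at one phone, with probability `1 - θ` pick up `k`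
different phones.
-/

namespace Pool.Agent.Results.MP_92dd55_pr.DeadlineExact

open MeasureTheory Run7.h391

/-- The probability that a uniformly random permutation of `n` points moves each of the first `k`
points. -/
noncomputable def noFix (n k : ℕ) : ℝ :=
  ((Finset.univ.filter fun π : Equiv.Perm (Fin n) => ∀ i : Fin n, (i : ℕ) < k → π i ≠ i).card : ℝ)
    / n.factorial

/-- The least possible probability of not meeting in the first `k` periods. -/
noncomputable def bestMiss (n k : ℕ) : ℝ :=
  ((1 - 1 / n) * noFix n k - (1 - k / n) ^ 2) / ((1 - 1 / n) + noFix n k - 2 * (1 - k / n))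

/-- The probability of staying in the optimal strategy. -/
noncomputable def stayProb (n k : ℕ) : ℝ :=
  (noFix n k - (1 - k / n)) / ((1 - 1 / n) + noFix n k - 2 * (1 - k / n))

theorem noFix_eq (n k : ℕ) : noFix n k = (av (diag n k) : ℝ) / n.factorial := by
  unfold noFix av
  congr 3
  ext π
  simp only [Finset.mem_filter, Finset.mem_univ, true_and]
  constructor
  · intro h f hf
    rw [mem_diag] at hf
    rw [← hf.1]
    exact h f.1 hf.2
  · intro h i hi
    exact h (i, i) (mem_diag.2 ⟨rfl, hi⟩)

theorem cc_pos {n k : ℕ} (hk2 : 2 ≤ k) (hk : k ≤ n) : 0 < cc n k := by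
  have h1 : hd n 1 ≤ cc n k := by
    unfold cc
    exact Finset.single_le_sum (f := fun j => hd n j) (fun _ _ => Nat.zero_le _)
      (Finset.mem_range.2 (by omega))
  have h2 : 0 < hd n 1 := by
    unfold hd
    rw [dif_pos (by omega : 1 < n)]
    unfold hh
    apply Finset.card_pos.2
    refine ⟨1, Finset.mem_filter.2 ⟨Finset.mem_univ _, rfl, ?_⟩⟩
    intro h
    exact h ((⟨0, by omega⟩, ⟨0, by omega⟩) : Fin n × Fin n) (mem_diag.2 ⟨rfl, by simp⟩) rfl
  omega

/-- For `2 ≤ k ≤ n`, the least probability `P(T > k)` over all symmetric strategies is `bestMiss n k`, and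
it is attained by the strategy that stays with probability `stayProb n k` and else tours. -/
theorem result (n k : ℕ) [NeZero n] (hk2 : 2 ≤ k) (hk : k ≤ n) :
    (∀ D : Measure (Schedule n), IsProbabilityMeasure D → bestMiss n k ≤ missProb D k) ∧
      0 < stayProb n k ∧ stayProb n k < 1 ∧
      IsProbabilityMeasure (stayOrTour n (stayProb n k)) ∧
      missProb (stayOrTour n (stayProb n k)) k = bestMiss n k := by
  have hn0 : (0 : ℝ) < n := by
    have : 0 < n := by omega
    exact_mod_cast this
  set N : ℝ := ((n - 1).factorial : ℝ) with hN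
  have hN0 : 0 < N := by rw [hN]; exact_mod_cast Nat.factorial_pos _
  have hnf : (n.factorial : ℝ) = n * N := by
    rw [← Nat.mul_factorial_pred (NeZero.ne n)]; push_cast; ring
  have hk2' : (2 : ℝ) ≤ k := by exact_mod_cast hk2
  set α : ℝ := ((k : ℝ) - 1) * N with hα
  have hα0 : 0 < α := by
    have : (0 : ℝ) < (k : ℝ) - 1 := by linarith
    positivity
  set γ : ℝ := (cc n k : ℝ) with hγ
  have hγ0 : 0 < γ := by rw [hγ]; exact_mod_cast cc_pos hk2 hk
  have hnN : (0 : ℝ) < n * N := by positivity
  have hB : noFix n k = 1 - k / n + γ / (n * N) := by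
    rw [noFix_eq, av_of_FF, FF_diag hk, card_diag hk, hnf, ← hN, ← hγ]
    field_simp
    ring
  have hden : (1 - 1 / n : ℝ) + noFix n k - 2 * (1 - k / n) = (α + γ) / (n * N) := by
    rw [hB, hα]; field_simp; ring
  have hθ : stayProb n k = γ / (α + γ) := by
    unfold stayProb
    rw [hden, hB]
    field_simp
    ring
  have hv : bestMiss n k = 1 - k / n + α * γ / (α + γ) / (n * N) := by
    unfold bestMiss
    rw [hden, hB, div_eq_iff (by positivity)]
    have h1 : (1 : ℝ) - 1 / n = 1 - k / n + α / (n * N) := by rw [hα]; field_simp; ring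
    rw [h1]
    field_simp
    ring
  have hθ0 : 0 < stayProb n k := by rw [hθ]; positivity
  have hθ1 : stayProb n k < 1 := by rw [hθ, div_lt_one (by positivity)]; linarith
  refine ⟨?_, hθ0, hθ1, isProb_stayOrTour n hθ0.le hθ1.le, ?_⟩
  · intro D hD
    have h := lower_scaled D hk2 hk
    rw [← hN, ← hα, ← hγ, hnf] at h
    rw [hv]
    have h2 : α * γ / (α + γ) / (n * N) ≤ (missProb D k * (n * N) - n * N + k * N) / (n * N) :=
      div_le_div_of_nonneg_right h hnN.le
    have h3 : (missProb D k * (n * N) - n * N + k * N) / (n * N) = missProb D k - 1 + k / n := by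
      field_simp
    linarith
  · have h := missProb_stayOrTour n hθ0.le hθ1.le (k := k) (by omega) hk
    rw [← hN, ← hα, ← hγ, hnf] at h
    have h2 : stayProb n k ^ 2 * α + (1 - stayProb n k) ^ 2 * γ = α * γ / (α + γ) := by
      rw [hθ]; field_simp; ring
    rw [h2] at h
    rw [hv]
    have h3 : missProb (stayOrTour n (stayProb n k)) k
        = (missProb (stayOrTour n (stayProb n k)) k * (n * N) - n * N + k * N) / (n * N) + 1 - k / n := by
      field_simp
      ring
    rw [h3, h]; ring

end Pool.Agent.Results.MP_92dd55_pr.DeadlineExact
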